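import Pool.Agent.Helper923.Knot.Chi
import Pool.Agent.Helper923.Knot.GL

/-! The configuration space is path connected; the knot type depends on the pattern only. -/

set_option autoImplicit false

namespace Knot548

/-- the standard configuration -/
def stdA (m : ℕ) : Fin m → (Fin 3 → ℝ) := fun i => ((i : ℕ) : ℝ) • ![1, 0, 0]

def stdB (m : ℕ) : Fin m → (Fin 3 → ℝ) :=
  fun i => (1 - ((i : ℕ) : ℝ)) • ![0, 1, 0] + ((i : ℕ) : ℝ) • ![0, 0, 1]

theorem joined_std {m : ℕ} (a b : Fin (m + 2) → (Fin 3 → ℝ)) (h : Conf a b) :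
    JoinedIn (SS (m + 2)) (a, b) (stdA (m + 2), stdB (m + 2)) := by
  obtain ⟨E, p, q, hE, h1⟩ := joined_line a b h
  have hc1 : Conf (lin E p q) b := h1.mem.2
  obtain ⟨F, r, w, hF, h2⟩ := joined_line b (lin E p q) (conf_comm hc1)
  have h3 := joined_swap h2
  have hc2 : Conf (lin E p q) (lin F r w) := h3.mem.2
  -- positivity
  have h01 : (0 : Fin (m + 2)) < Fin.last (m + 1) := by
    rw [Fin.lt_def]
    simp
  have hpos : 0 < chi p q r w := by
    have := hc2 0 (Fin.last (m + 1)) 0 (Fin.last (m + 1)) h01 h01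
    have e := chi_lines (E 0) (E (Fin.last (m + 1))) (F 0) (F (Fin.last (m + 1))) p q r w
    have h5 : 0 < (E (Fin.last (m + 1)) - E 0) * (F (Fin.last (m + 1)) - F 0) * chi p q r w := by
      rw [← e]
      exact this
    have h6 : 0 < (E (Fin.last (m + 1)) - E 0) * (F (Fin.last (m + 1)) - F 0) :=
      mul_pos (sub_pos.2 (hE h01)) (sub_pos.2 (hF h01))
    exact (mul_pos_iff_of_pos_left h6).1 h5
  -- standard parameters
  let σ : Fin (m + 2) → ℝ := fun i => ((i : ℕ) : ℝ)
  have hσ : StrictMono σ := by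
    intro i j hij
    show ((i : ℕ) : ℝ) < ((j : ℕ) : ℝ)
    exact_mod_cast hij
  have h4 : JoinedIn (SS (m + 2)) (lin E p q, lin F r w) (lin σ p q, lin σ r w) := by
    have h5 := joined_of_fun (S := SS (m + 2)) (fun t : ℝ =>
      (lin (fun i => (1 - t) * E i + t * σ i) p q, lin (fun i => (1 - t) * F i + t * σ i) r w))
      (by unfold lin; fun_prop) ?_
    · have e0 : ∀ G : Fin (m + 2) → ℝ, (fun i => (1 - (0 : ℝ)) * G i + (0 : ℝ) * σ i) = G := by
        intro G; funext i; ring
      have e1 : ∀ G : Fin (m + 2) → ℝ, (fun i => (1 - (1 : ℝ)) * G i + (1 : ℝ) * σ i) = σ := by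
        intro G; funext i; ring
      simp only [e0, e1] at h5
      exact h5
    · intro t ht i j k l hij hkl
      have mono : ∀ G : Fin (m + 2) → ℝ, StrictMono G → ∀ i j : Fin (m + 2), i < j →
          (1 - t) * G i + t * σ i < (1 - t) * G j + t * σ j := by
        intro G hG i j hij
        have g1 := hG hij
        have g2 := hσ hij
        rcases eq_or_lt_of_le ht.1 with h6 | h6
        · rw [← h6]; simpa using g1
        · have g3 : (1 - t) * G i ≤ (1 - t) * G j :=
            mul_le_mul_of_nonneg_left g1.le (by linarith [ht.2])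
          have g4 : t * σ i < t * σ j := mul_lt_mul_of_pos_left g2 h6
          linarith
      show 0 < chi _ _ _ _
      unfold lin
      rw [chi_lines]
      exact mul_pos (mul_pos (sub_pos.2 (mono E hE i j hij)) (sub_pos.2 (mono F hF k l hkl))) hpos
  -- the four points
  let T : Set ((Fin 3 → ℝ) × (Fin 3 → ℝ) × (Fin 3 → ℝ) × (Fin 3 → ℝ)) :=
    {x | 0 < chi x.1 x.2.1 x.2.2.1 x.2.2.2}
  let Φ : (Fin 3 → ℝ) × (Fin 3 → ℝ) × (Fin 3 → ℝ) × (Fin 3 → ℝ) →
      (Fin (m + 2) → (Fin 3 → ℝ)) × (Fin (m + 2) → (Fin 3 → ℝ)) := fun x =>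
    (lin σ x.1 x.2.1, lin σ x.2.2.1 x.2.2.2)
  have hΦ : Continuous Φ := by
    unfold Φ lin
    fun_prop
  have hΦT : ∀ x ∈ T, Φ x ∈ SS (m + 2) := by
    intro x hx i j k l hij hkl
    show 0 < chi _ _ _ _
    simp only [Φ, lin]
    rw [chi_lines]
    exact mul_pos (mul_pos (sub_pos.2 (hσ hij)) (sub_pos.2 (hσ hkl))) hx
  have h5 : JoinedIn T (p, q, r, w) (0, q - p, r - p, w - p) := by
    have h6 := joined_of_fun (S := T) (fun t : ℝ =>
      (p + (-t) • p, q + (-t) • p, r + (-t) • p, w + (-t) • p)) (by fun_prop) ?_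
    · simp only [neg_zero, zero_smul, add_zero, neg_smul, one_smul] at h6
      convert h6 using 2 <;> simp [sub_eq_add_neg]
    · intro t _
      show 0 < chi _ _ _ _
      rw [chi_trans]
      exact hpos
  -- matrices
  let Ψ : Matrix (Fin 3) (Fin 3) ℝ → (Fin 3 → ℝ) × (Fin 3 → ℝ) × (Fin 3 → ℝ) × (Fin 3 → ℝ) :=
    fun M => (0, M 0, M 1, M 2)
  have hΨ : Continuous Ψ := by
    refine continuous_const.prodMk (Continuous.prodMk ?_ (Continuous.prodMk ?_ ?_))
    · exact continuous_apply 0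
    · exact continuous_apply 1
    · exact continuous_apply 2
  have hdet : ∀ M : Matrix (Fin 3) (Fin 3) ℝ, chi 0 (M 0) (M 1) (M 2) = M.det := by
    intro M
    rw [chi_eq, Matrix.det_fin_three]
    simp only [Pi.zero_apply, sub_zero]
  have h7 : JoinedIn T (0, q - p, r - p, w - p) (0, ![1, 0, 0], ![0, 1, 0], ![0, 0, 1]) := by
    let M : Matrix (Fin 3) (Fin 3) ℝ := Matrix.of ![q - p, r - p, w - p]
    have hM : 0 < M.det := hpos
    have h8 := joined_map (T := T) Ψ hΨ (fun N hN => by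
      show 0 < chi 0 (N 0) (N 1) (N 2)
      rw [hdet]
      exact hN) (joined_det M hM)
    have e1 : Ψ M = (0, q - p, r - p, w - p) := rfl
    have e2 : Ψ 1 = (0, ![1, 0, 0], ![0, 1, 0], ![0, 0, 1]) := by
      show ((0 : Fin 3 → ℝ), (1 : Matrix (Fin 3) (Fin 3) ℝ) 0, (1 : Matrix (Fin 3) (Fin 3) ℝ) 1,
        (1 : Matrix (Fin 3) (Fin 3) ℝ) 2) = _
      refine Prod.ext rfl (Prod.ext ?_ (Prod.ext ?_ ?_))
      · funext i; fin_cases i <;> simp [Matrix.one_apply]
      · funext i; fin_cases i <;> simp [Matrix.one_apply]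
      · funext i; fin_cases i <;> simp [Matrix.one_apply]
    rw [e1, e2] at h8
    exact h8
  have h9 := joined_map Φ hΦ hΦT (h5.trans h7)
  have e3 : Φ (0, ![1, 0, 0], ![0, 1, 0], ![0, 0, 1]) = (stdA (m + 2), stdB (m + 2)) := by
    refine Prod.ext ?_ ?_
    · funext i
      show (1 - σ i) • (0 : Fin 3 → ℝ) + σ i • ![1, 0, 0] = ((i : ℕ) : ℝ) • ![1, 0, 0]
      rw [smul_zero, zero_add]
    · funext i
      rfl
  rw [e3] at h9
  exact ((h1.trans h3).trans h4).trans h9

/-- index list of an alternating polygon -/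
def altIdx {m : ℕ} (π : List (Fin m × Fin m)) : List (Fin m ⊕ Fin m) :=
  π.flatMap (fun p => [Sum.inl p.1, Sum.inr p.2])

theorem alt_eq_idx {E : Type*} {m : ℕ} (a b : Fin m → E) (π : List (Fin m × Fin m)) :
    alt a b π = (altIdx π).map (Sum.elim a b) := by
  unfold alt altIdx
  rw [List.map_flatMap]
  rfl

/-- a path in the configuration space gives an equivalence -/
theorem eqv_of_joined {m : ℕ} (a b a' b' : Fin m → (Fin 3 → ℝ)) (π : List (Fin m × Fin m))
    (hs : ∀ c d : Fin m → (Fin 3 → ℝ), Conf c d → Simple (alt c d π))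
    (h : JoinedIn (SS m) (a, b) (a', b')) : Eqv (alt a b π) (alt a' b' π) := by
  obtain ⟨γ, hγ⟩ := h
  let v : ℝ → Fin (altIdx π).length → (Fin 3 → ℝ) := fun t i =>
    Sum.elim (γ.extend t).1 (γ.extend t).2 ((altIdx π).get i)
  have hv : ∀ t, List.ofFn (v t) = alt (γ.extend t).1 (γ.extend t).2 π := by
    intro t
    rw [alt_eq_idx]
    apply List.ext_getElem
    · simp
    · intro i h1 h2
      simp [v]
  have hcont : Continuous v := by
    apply continuous_pi
    intro i
    have hc : Continuous γ.extend := γ.continuous_extend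
    cases h : (altIdx π).get i with
    | inl j =>
      simp only [v, h, Sum.elim_inl]
      fun_prop
    | inr j =>
      simp only [v, h, Sum.elim_inr]
      fun_prop
  have hm : Move (List.ofFn (v 0)) (List.ofFn (v 1)) := by
    refine Move.motion v hcont ?_
    intro t ht
    rw [hv]
    apply hs
    have := hγ ⟨t, ht⟩
    rw [γ.extend_apply ht]
    exact this
  rw [hv, hv] at hm
  have e0 : γ.extend 0 = (a, b) := by simp
  have e1 : γ.extend 1 = (a', b') := by simp
  rw [e0, e1] at hm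
  exact Relation.EqvGen.rel _ _ hm

end Knot548
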