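import Pool.Agent.Helper923.Knot.Defs

set_option autoImplicit false

/-! TARGET (the definitions above must stay unchanged) -/

namespace Knot548

theorem eqv_map_hseg {E F : Type*} [AddCommGroup E] [Module ℝ E] [TopologicalSpace E]
    [AddCommGroup F] [Module ℝ F] [TopologicalSpace F] (e : E ≃L[ℝ] F) (a b : E) :
    hseg (e a) (e b) = e '' hseg a b := by
  ext x
  constructor
  · rintro ⟨s, h0, h1, rfl⟩
    exact ⟨_, ⟨s, h0, h1, rfl⟩, by rw [map_add, map_smul, map_smul]⟩
  · rintro ⟨_, ⟨s, h0, h1, rfl⟩, rfl⟩
    exact ⟨s, h0, h1, by rw [map_add, map_smul, map_smul]⟩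

theorem eqv_map_cedges {α β : Type*} (f : α → β) (L : List α) :
    cedges (L.map f) = (cedges L).map (Prod.map f f) := by
  unfold cedges
  rw [← List.map_rotate, List.zip_map]

theorem eqv_map_simple {E F : Type*} [AddCommGroup E] [Module ℝ E] [TopologicalSpace E]
    [AddCommGroup F] [Module ℝ F] [TopologicalSpace F] (e : E ≃L[ℝ] F) (L : List E)
    (h : Simple L) : Simple (L.map e) := by
  constructor
  · rw [eqv_map_cedges]
    intro p hp
    rw [List.mem_map] at hp
    obtain ⟨q, hq, rfl⟩ := hp
    exact fun h' => h.1 q hq (e.injective h')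
  · rw [eqv_map_cedges, List.pairwise_map]
    refine h.2.imp ?_
    intro p q hpq
    show Disjoint (hseg (e p.1) (e p.2)) (hseg (e q.1) (e q.2))
    rw [eqv_map_hseg, eqv_map_hseg]
    exact (Set.disjoint_image_iff e.injective).2 hpq

theorem eqv_map_move {E F : Type*} [AddCommGroup E] [Module ℝ E] [TopologicalSpace E]
    [AddCommGroup F] [Module ℝ F] [TopologicalSpace F] (e : E ≃L[ℝ] F) (P Q : List E)
    (h : Move P Q) : Move (P.map e) (Q.map e) := by
  cases h with
  | motion v hv hs =>
    have h1 := Move.motion (fun t i => e (v t i))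
      (continuous_pi fun i => e.continuous.comp ((continuous_apply i).comp hv)) (fun t ht => by
        have h2 := eqv_map_simple e _ (hs t ht)
        rw [List.map_ofFn] at h2
        exact h2)
    rw [List.map_ofFn, List.map_ofFn]
    exact h1
  | insert a b L s h0 h1 =>
    have h2 := Move.insert (e a) (e b) (L.map e) s h0 h1
    rw [← map_smul, ← map_smul, ← map_add] at h2
    exact h2
  | rotate =>
    rw [List.map_rotate]
    exact Move.rotate _

theorem eqv_map {E F : Type*} [AddCommGroup E] [Module ℝ E] [TopologicalSpace E]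
    [AddCommGroup F] [Module ℝ F] [TopologicalSpace F] (e : E ≃L[ℝ] F) (P Q : List E) :
    Eqv P Q → Eqv (P.map e) (Q.map e) := by
  intro h
  induction h with
  | rel x y h => exact Relation.EqvGen.rel _ _ (eqv_map_move e _ _ h)
  | refl x => exact Relation.EqvGen.refl _
  | symm x y _ ih => exact Relation.EqvGen.symm _ _ ih
  | trans x y z _ _ ih1 ih2 => exact Relation.EqvGen.trans _ _ _ ih1 ih2

end Knot548
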