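import Pool.Agent.Helper923.Knot.Chi
import Pool.Agent.Helper923.Knot.Spoke
import Pool.Agent.Helper923.Knot.EqvMap

/-! Motions of spoke polygons. -/

set_option autoImplicit false
set_option backward.isDefEq.respectTransparency.types false

namespace Knot548

/-- a motion of an alternating polygon -/
theorem eqv_alt_motion {E : Type*} [AddCommGroup E] [Module ℝ E] [TopologicalSpace E] {m : ℕ}
    (c d : ℝ → Fin m → E) (hc : Continuous c) (hd : Continuous d) (π : List (Fin m × Fin m))
    (hs : ∀ t ∈ Set.Icc (0 : ℝ) 1, Simple (alt (c t) (d t) π)) :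
    Eqv (alt (c 0) (d 0) π) (alt (c 1) (d 1) π) := by
  let idx : List (Fin m ⊕ Fin m) := π.flatMap (fun p => [Sum.inl p.1, Sum.inr p.2])
  have halt : ∀ a b : Fin m → E, alt a b π = idx.map (Sum.elim a b) := by
    intro a b
    unfold alt
    simp only [idx]
    rw [List.map_flatMap]
    rfl
  let v : ℝ → Fin idx.length → E := fun t i => Sum.elim (c t) (d t) (idx.get i)
  have hv : ∀ t, List.ofFn (v t) = alt (c t) (d t) π := by
    intro t
    rw [halt]
    apply List.ext_getElem
    · simp
    · intro i h1 h2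
      simp [v]
  have hcont : Continuous v := by
    apply continuous_pi
    intro i
    cases h : idx.get i with
    | inl j =>
      simp only [v, h, Sum.elim_inl]
      fun_prop
    | inr j =>
      simp only [v, h, Sum.elim_inr]
      fun_prop
  have hm : Move (List.ofFn (v 0)) (List.ofFn (v 1)) := by
    refine Move.motion v hcont ?_
    intro t ht
    rw [hv]
    exact hs t ht
  rw [hv, hv] at hm
  exact Relation.EqvGen.rel _ _ hm

/-- spoke polygons given by functions -/
theorem simple_fn {n : ℕ} (hn : 2 ≤ n) (x : ℂ) (h : Fin n → ℝ) (hh : Function.Injective h)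
    (p : Fin n → ℂ × ℝ) (hx : ∀ i, (p i).1 ≠ x)
    (hd : ∀ i j, i ≠ j → ∀ s t : ℝ, 0 ≤ s → 0 ≤ t →
      s • ((p i).1 - x) = t • ((p j).1 - x) → s = 0) :
    Simple (alt (fun i => ((x, h i) : ℂ × ℝ)) p (List.ofFn fun i => (i, i))) := by
  have h0 : alt (fun i => ((x, h i) : ℂ × ℝ)) p (List.ofFn fun i => (i, i)) =
      spoke x (List.ofFn fun i => (h i, p i)) := by
    unfold alt spoke
    rw [List.ofFn_eq_map, List.ofFn_eq_map, List.flatMap_map, List.flatMap_map]
  rw [h0]
  apply simple_spoke
  · simpa using hn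
  · rw [List.ofFn_eq_map, List.map_map]
    exact (List.nodup_finRange n).map hh
  · intro q hq
    rw [List.mem_ofFn] at hq
    obtain ⟨i, rfl⟩ := hq
    exact hx i
  · rw [List.pairwise_ofFn]
    intro i j hij s t hs ht he
    exact hd i j hij.ne s t hs ht he

/-- a ray from a point inside the circle meets the circle only once -/
theorem ray_once (O x : ℂ) (hx : ‖x - O‖ < 1) (p q : ℂ) (hp : ‖p - O‖ = 1) (hq : ‖q - O‖ = 1)
    (hne : p ≠ q) (s t : ℝ) (hs : 0 ≤ s) (ht : 0 ≤ t) (h : s • (p - x) = t • (q - x)) : s = 0 := by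
  by_contra hs0
  have hs1 : 0 < s := lt_of_le_of_ne hs (Ne.symm hs0)
  have e1 : s * (p.re - x.re) = t * (q.re - x.re) := by
    have := congrArg Complex.re h
    simpa using this
  have e2 : s * (p.im - x.im) = t * (q.im - x.im) := by
    have := congrArg Complex.im h
    simpa using this
  have n1 : (p.re - O.re) ^ 2 + (p.im - O.im) ^ 2 = 1 := by
    have h1 : ‖p - O‖ ^ 2 = 1 := by rw [hp]; norm_num
    rw [← Complex.normSq_eq_norm_sq, Complex.normSq_apply] at h1
    simp only [Complex.sub_re, Complex.sub_im] at h1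
    linarith
  have n2 : (q.re - O.re) ^ 2 + (q.im - O.im) ^ 2 = 1 := by
    have h1 : ‖q - O‖ ^ 2 = 1 := by rw [hq]; norm_num
    rw [← Complex.normSq_eq_norm_sq, Complex.normSq_apply] at h1
    simp only [Complex.sub_re, Complex.sub_im] at h1
    linarith
  have n3 : (x.re - O.re) ^ 2 + (x.im - O.im) ^ 2 < 1 := by
    have h1 : ‖x - O‖ ^ 2 < 1 := by nlinarith [norm_nonneg (x - O)]
    rw [← Complex.normSq_eq_norm_sq, Complex.normSq_apply] at h1
    simp only [Complex.sub_re, Complex.sub_im] at h1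
    linarith
  -- λ = t / s : p = x + λ (q - x)
  set l := t / s with hl
  have l0 : 0 ≤ l := div_nonneg ht hs
  have p1 : p.re = x.re + l * (q.re - x.re) := by
    rw [hl]; field_simp; linarith
  have p2 : p.im = x.im + l * (q.im - x.im) := by
    rw [hl]; field_simp; linarith
  set a := (q.re - x.re) ^ 2 + (q.im - x.im) ^ 2 with ha
  set c := (x.re - O.re) ^ 2 + (x.im - O.im) ^ 2 - 1 with hc
  have key : (l - 1) * (a * l - c) = 0 := by
    have m1 : (x.re + l * (q.re - x.re) - O.re) ^ 2 + (x.im + l * (q.im - x.im) - O.im) ^ 2 = 1 := by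
      rw [← p1, ← p2]; exact n1
    have m2 : (x.re - O.re + (q.re - x.re)) ^ 2 + (x.im - O.im + (q.im - x.im)) ^ 2 = 1 := by
      rw [← n2]; ring
    rw [ha, hc]
    linear_combination m1 - l * m2
  have hpos : 0 < a * l - c := by
    have : 0 ≤ a * l := mul_nonneg (by rw [ha]; positivity) l0
    linarith
  have hl1 : l = 1 := by
    rcases mul_eq_zero.1 key with h1 | h1
    · linarith
    · exact absurd h1 hpos.ne'
  apply hne
  apply Complex.ext
  · rw [p1, hl1]; ring
  · rw [p2, hl1]; ring

/-- Move the tips to the unit circle, then the centre inside the disc. -/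
theorem spoke_moves {n : ℕ} (hn : 2 ≤ n) (O : ℂ) (h : Fin n → ℝ) (hh : Function.Injective h)
    (p : Fin n → ℂ × ℝ) (hx : ∀ i, (p i).1 ≠ O)
    (hd : ∀ i j, i ≠ j → ∀ s t : ℝ, 0 ≤ s → 0 ≤ t →
      s • ((p i).1 - O) = t • ((p j).1 - O) → s = 0) :
    ∃ q : Fin n → ℂ × ℝ, (∀ i, ‖(q i).1 - O‖ = 1) ∧ (∀ i j, i ≠ j → (q i).1 ≠ (q j).1) ∧
      ∀ x : ℂ, ‖x - O‖ < 1 →
        Eqv (alt (fun i => ((O, h i) : ℂ × ℝ)) p (List.ofFn fun i => (i, i)))
          (alt (fun i => ((x, h i) : ℂ × ℝ)) q (List.ofFn fun i => (i, i))) := by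
  have hpos : ∀ i, 0 < ‖(p i).1 - O‖ := fun i => norm_pos_iff.2 (sub_ne_zero.2 (hx i))
  let q : Fin n → ℂ × ℝ := fun i => (O + (1 / ‖(p i).1 - O‖) • ((p i).1 - O), (p i).2)
  have hq1 : ∀ i, ‖(q i).1 - O‖ = 1 := by
    intro i
    simp only [q, add_sub_cancel_left, norm_smul, Real.norm_eq_abs]
    rw [abs_of_pos (by have := hpos i; positivity)]
    have := (hpos i).ne'
    field_simp
  have hq2 : ∀ i j, i ≠ j → (q i).1 ≠ (q j).1 := by
    intro i j hij he
    simp only [q, add_right_inj] at he
    have := hd i j hij _ _ (by have := hpos i; positivity) (by have := hpos j; positivity) he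
    have h2 := hpos i
    have : (0 : ℝ) < 1 / ‖(p i).1 - O‖ := by positivity
    linarith
  refine ⟨q, hq1, hq2, ?_⟩
  intro x hxO
  -- first motion
  have s1 : Eqv (alt (fun i => ((O, h i) : ℂ × ℝ)) p (List.ofFn fun i => (i, i)))
      (alt (fun i => ((O, h i) : ℂ × ℝ)) q (List.ofFn fun i => (i, i))) := by
    have := eqv_alt_motion (fun _ : ℝ => fun i : Fin n => ((O, h i) : ℂ × ℝ))
      (fun t : ℝ => fun i : Fin n =>
        ((O + ((1 - t) + t * (1 / ‖(p i).1 - O‖)) • ((p i).1 - O), (p i).2) : ℂ × ℝ))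
      (by fun_prop) (by fun_prop) (List.ofFn fun i => (i, i)) ?_
    · have e0 : (fun i : Fin n =>
          ((O + ((1 - (0 : ℝ)) + 0 * (1 / ‖(p i).1 - O‖)) • ((p i).1 - O), (p i).2) : ℂ × ℝ)) = p := by
        funext i
        simp
      have e1 : (fun i : Fin n =>
          ((O + ((1 - (1 : ℝ)) + 1 * (1 / ‖(p i).1 - O‖)) • ((p i).1 - O), (p i).2) : ℂ × ℝ)) = q := by
        funext i
        simp [q]
      rw [e0, e1] at this
      exact this
    · intro t ht
      have hl : ∀ i, 0 < (1 - t) + t * (1 / ‖(p i).1 - O‖) := by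
        intro i
        have h1 : 0 < 1 / ‖(p i).1 - O‖ := by have := hpos i; positivity
        rcases eq_or_lt_of_le ht.1 with h2 | h2
        · rw [← h2]; norm_num
        · have : 0 < t * (1 / ‖(p i).1 - O‖) := mul_pos h2 h1
          linarith [ht.2]
      apply simple_fn hn O h hh
      · intro i he
        simp only [add_eq_left] at he
        rcases smul_eq_zero.1 he with h1 | h1
        · exact (hl i).ne' h1
        · exact hx i (sub_eq_zero.1 h1)
      · intro i j hij s t' hs ht' he
        simp only [add_sub_cancel_left, smul_smul] at he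
        have := hd i j hij _ _ (mul_nonneg hs (hl i).le) (mul_nonneg ht' (hl j).le) he
        rcases mul_eq_zero.1 this with h1 | h1
        · exact h1
        · exact absurd h1 (hl i).ne'
  -- second motion
  have s2 : Eqv (alt (fun i => ((O, h i) : ℂ × ℝ)) q (List.ofFn fun i => (i, i)))
      (alt (fun i => ((x, h i) : ℂ × ℝ)) q (List.ofFn fun i => (i, i))) := by
    have := eqv_alt_motion (fun t : ℝ => fun i : Fin n => ((O + t • (x - O), h i) : ℂ × ℝ))
      (fun _ : ℝ => q)
      (by fun_prop) (by fun_prop) (List.ofFn fun i => (i, i)) ?_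
    · have e0 : (fun i : Fin n => ((O + (0 : ℝ) • (x - O), h i) : ℂ × ℝ)) =
          fun i => ((O, h i) : ℂ × ℝ) := by
        funext i
        simp
      have e1 : (fun i : Fin n => ((O + (1 : ℝ) • (x - O), h i) : ℂ × ℝ)) =
          fun i => ((x, h i) : ℂ × ℝ) := by
        funext i
        simp
      rw [e0, e1] at this
      exact this
    · intro t ht
      have hxt : ‖(O + t • (x - O)) - O‖ < 1 := by
        simp only [add_sub_cancel_left, norm_smul, Real.norm_eq_abs]
        rw [abs_of_nonneg ht.1]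
        have h1 : t * ‖x - O‖ ≤ 1 * ‖x - O‖ := mul_le_mul_of_nonneg_right ht.2 (norm_nonneg _)
        linarith
      apply simple_fn hn _ h hh
      · intro i he
        rw [← he, hq1 i] at hxt
        exact lt_irrefl _ hxt
      · intro i j hij s t' hs ht' he
        exact ray_once O _ hxt _ _ (hq1 i) (hq1 j) (hq2 i j hij) s t' hs ht' he
  exact Relation.EqvGen.trans _ _ _ s1 s2

end Knot548
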