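import Pool.Agent.Helper923.Knot.Chi

/-! chirality in coordinates -/

set_option autoImplicit false
set_option backward.isDefEq.respectTransparency.types false

namespace Knot548

theorem chi_e_dec (e : (ℂ × ℝ) ≃L[ℝ] (Fin 3 → ℝ)) (z : ℂ) (h : ℝ) :
    e (z, h) = z.re • e (1, 0) + z.im • e (Complex.I, 0) + h • e (0, 1) := by
  rw [← map_smul, ← map_smul, ← map_smul, ← map_add, ← map_add]
  congr 1
  ext <;> simp

theorem chi_e (e : (ℂ × ℝ) ≃L[ℝ] (Fin 3 → ℝ)) : ∃ c : ℝ, c ≠ 0 ∧
    ∀ (x : ℂ) (h h' : ℝ) (b b' : ℂ × ℝ), chi (e (x, h)) (e (x, h')) (e b) (e b') =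
      c * ((h' - h) * ((b.1 - x).re * (b'.1 - x).im - (b.1 - x).im * (b'.1 - x).re)) := by
  refine ⟨Matrix.det (Matrix.of ![e (1, 0), e (Complex.I, 0), e (0, 1)]), ?_, ?_⟩
  · intro h0
    obtain ⟨v, hv, hv2⟩ := Matrix.exists_vecMul_eq_zero_iff.mpr h0
    apply hv
    have h1 : e (⟨v 0, v 1⟩, v 2) = 0 := by
      rw [chi_e_dec]
      funext j
      have := congrFun hv2 j
      simp only [Matrix.vecMul, dotProduct, Fin.sum_univ_three, Matrix.of_apply, Matrix.cons_val] at this
      simpa using this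
    have h2 : ((⟨v 0, v 1⟩, v 2) : ℂ × ℝ) = 0 := by
      simpa using h1
    have h3 := congrArg Prod.fst h2
    have h4 := congrArg Prod.snd h2
    have h5 := congrArg Complex.re h3
    have h6 := congrArg Complex.im h3
    simp at h4 h5 h6
    funext j
    fin_cases j
    · simpa using h5
    · simpa using h6
    · simpa using h4
  · intro x h h' b b'
    obtain ⟨z, s⟩ := b
    obtain ⟨z', s'⟩ := b'
    rw [chi, chi_e_dec e x h, chi_e_dec e x h', chi_e_dec e z s, chi_e_dec e z' s']
    generalize e (1, 0) = E1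
    generalize e (Complex.I, 0) = E2
    generalize e (0, 1) = E3
    simp only [Matrix.det_fin_three, Matrix.of_apply, Matrix.cons_val, Pi.sub_apply, Pi.add_apply,
      Pi.smul_apply, smul_eq_mul, Complex.sub_re, Complex.sub_im]
    ring


end Knot548

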