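import Pool.Agent.Helper923.Knot.Defs

/-! Edges of a polygon given by a function. -/

set_option autoImplicit false
set_option backward.isDefEq.respectTransparency.types false

namespace Knot548

theorem ofFn_cedges {α : Type*} {m : ℕ} (p : Fin (m + 1) → α) :
    cedges (List.ofFn p) = List.ofFn (fun k : Fin (m + 1) => (p k, p (k + 1))) := by
  unfold cedges
  apply List.ext_getElem
  · simp
  · intro i h1 h2
    rw [List.getElem_zip, List.getElem_rotate, List.getElem_ofFn, List.getElem_ofFn,
      List.getElem_ofFn]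
    congr 1
    apply congrArg p
    apply Fin.ext
    rw [List.length_ofFn] at h2
    show (i + 1) % (List.ofFn p).length = ((⟨i, h2⟩ : Fin (m + 1)) + 1 : Fin (m + 1)).val
    rw [List.length_ofFn, Fin.val_add]
    rcases Nat.eq_zero_or_pos m with hm | hm
    · subst hm
      simp
    · rw [Fin.val_one']
      rw [Nat.mod_eq_of_lt (show 1 < m + 1 by omega)]

/-- simplicity of a polygon given by a function -/
theorem simple_ofFn {E : Type*} [AddCommGroup E] [Module ℝ E] {m : ℕ} (p : Fin (m + 1) → E) :
    Simple (List.ofFn p) ↔ (∀ k, p k ≠ p (k + 1)) ∧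
      ∀ k l : Fin (m + 1), k ≠ l → Disjoint (hseg (p k) (p (k + 1))) (hseg (p l) (p (l + 1))) := by
  unfold Simple
  rw [ofFn_cedges, List.forall_mem_ofFn_iff, List.pairwise_ofFn]
  constructor
  · rintro ⟨h1, h2⟩
    refine ⟨h1, ?_⟩
    intro k l hkl
    rcases lt_or_gt_of_ne hkl with h | h
    · exact h2 h
    · exact (h2 h).symm
  · rintro ⟨h1, h2⟩
    refine ⟨h1, ?_⟩
    intro k l hkl
    exact h2 k l hkl.ne

end Knot548
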