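import Pool.Agent.Helper923.Knot.Defs

/-! Consecutive edges open up linearly. -/

set_option autoImplicit false
set_option backward.isDefEq.respectTransparency.types false

namespace Knot548

theorem adj_const_aux {ι : Type*} [Fintype ι] (A P B : ι → ℝ) (hB : P ≠ B)
    (hd : Disjoint (hseg A P) (hseg P B)) :
    ∃ c : ℝ, 0 < c ∧ ∀ s ∈ Set.Icc (0 : ℝ) 1, ∀ t ∈ Set.Icc (0 : ℝ) 1,
      c * ((1 - s) + t) ≤
        ‖((1 - s) • A + s • P) - ((1 - t) • P + t • B)‖ := by
  have hcont : Continuous (fun α : ℝ => ‖α • (A - P) - (1 - α) • (B - P)‖) := by fun_prop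
  obtain ⟨x, hx, hmin⟩ := (isCompact_Icc (a := (0 : ℝ)) (b := 1)).exists_isMinOn
    ⟨0, by simp⟩ hcont.continuousOn
  have hpos : 0 < ‖x • (A - P) - (1 - x) • (B - P)‖ := by
    rw [norm_pos_iff]
    intro h0
    rcases eq_or_lt_of_le hx.1 with h | h
    · rw [← h] at h0
      simp only [zero_smul, sub_zero, one_smul, zero_sub, neg_eq_zero] at h0
      exact hB (sub_eq_zero.1 h0).symm
    · have ha : x • A + (1 - x) • P ∈ hseg A P :=
        ⟨1 - x, by linarith [hx.2], by linarith, by rw [sub_sub_cancel]⟩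
      have hb : x • A + (1 - x) • P ∈ hseg P B := by
        refine ⟨1 - x, by linarith [hx.2], by linarith, ?_⟩
        rw [sub_sub_cancel]
        have h1 : x • A + (1 - x) • P = (x • (A - P) - (1 - x) • (B - P)) + (x • P + (1 - x) • B) := by
          module
        rw [h1, h0, zero_add]
      exact Set.disjoint_left.1 hd ha hb
  refine ⟨‖x • (A - P) - (1 - x) • (B - P)‖, hpos, fun s hs t ht => ?_⟩
  have e : ((1 - s) • A + s • P) - ((1 - t) • P + t • B) = (1 - s) • (A - P) - t • (B - P) := by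
    module
  rw [e]
  rcases eq_or_lt_of_le (show 0 ≤ (1 - s) + t by linarith [hs.2, ht.1]) with h | h
  · rw [← h, mul_zero]
    exact norm_nonneg _
  · have hm : ((1 - s) / ((1 - s) + t)) ∈ Set.Icc (0 : ℝ) 1 := by
      refine ⟨div_nonneg (by linarith [hs.2]) h.le, ?_⟩
      rw [div_le_one h]
      linarith [ht.1]
    have h2 : ‖x • (A - P) - (1 - x) • (B - P)‖ ≤
      ‖((1 - s) / ((1 - s) + t)) • (A - P) - (1 - (1 - s) / ((1 - s) + t)) • (B - P)‖ := hmin hm
    have h3 : ((1 - s) / ((1 - s) + t)) • (A - P) - (1 - (1 - s) / ((1 - s) + t)) • (B - P)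
        = ((1 - s) + t)⁻¹ • ((1 - s) • (A - P) - t • (B - P)) := by
      have h4 : 1 - (1 - s) / ((1 - s) + t) = ((1 - s) + t)⁻¹ * t := by
        field_simp
        ring
      rw [h4, div_eq_inv_mul, mul_smul, mul_smul, ← smul_sub]
    rw [h3, norm_smul, norm_inv, Real.norm_of_nonneg h.le, ← div_eq_inv_mul, le_div_iff₀ h] at h2
    exact h2

/-- two consecutive edges open up linearly -/
theorem adj_const {ι : Type*} [Fintype ι] {m : ℕ} (p : Fin (m + 1) → (ι → ℝ))
    (h1 : ∀ k, p k ≠ p (k + 1))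
    (h2 : ∀ k l : Fin (m + 1), k ≠ l → Disjoint (hseg (p k) (p (k + 1))) (hseg (p l) (p (l + 1))))
    (k : Fin (m + 1)) :
    ∃ c : ℝ, 0 < c ∧ ∀ s ∈ Set.Icc (0 : ℝ) 1, ∀ t ∈ Set.Icc (0 : ℝ) 1,
      c * ((1 - s) + t) ≤
        ‖((1 - s) • p k + s • p (k + 1)) - ((1 - t) • p (k + 1) + t • p (k + 1 + 1))‖ := by
  refine adj_const_aux (p k) (p (k + 1)) (p (k + 1 + 1)) (h1 (k + 1)) (h2 k (k + 1) ?_)
  intro h
  exact h1 k (congrArg p h)

end Knot548
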