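import Mathlib

namespace Knot548

open Set

section General

variable {E : Type*} [AddCommGroup E] [Module ℝ E]

/-- The half-open segment from `a` (included) to `b` (excluded). -/
def hseg (a b : E) : Set E := {x | ∃ s : ℝ, 0 ≤ s ∧ s < 1 ∧ x = (1 - s) • a + s • b}

/-- The directed edges `(L₀, L₁), (L₁, L₂), …, (Lₙ₋₁, L₀)` of the closed polygon with vertex list `L`. -/
def cedges {α : Type*} (L : List α) : List (α × α) := L.zip (L.rotate 1)

/-- The closed polygon with vertex list `L` is simple: its edges are nondegenerate and its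
half-open edges are pairwise disjoint. -/
def Simple (L : List E) : Prop :=
  (∀ e ∈ cedges L, e.1 ≠ e.2) ∧
    (cedges L).Pairwise (fun e e' => Disjoint (hseg e.1 e.2) (hseg e'.1 e'.2))

/-- Elementary moves of closed polygons. -/
inductive Move [TopologicalSpace E] : List E → List E → Prop
  | motion {n : ℕ} (v : ℝ → Fin n → E) (hv : Continuous v)
      (hs : ∀ t ∈ Icc (0 : ℝ) 1, Simple (List.ofFn (v t))) :
      Move (List.ofFn (v 0)) (List.ofFn (v 1))
  | insert (a b : E) (L : List E) (s : ℝ) (h0 : 0 < s) (h1 : s < 1) :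
      Move (a :: b :: L) (a :: ((1 - s) • a + s • b) :: b :: L)
  | rotate (L : List E) : Move L (L.rotate 1)

/-- Equivalence of closed polygons. -/
def Eqv [TopologicalSpace E] (L L' : List E) : Prop := Relation.EqvGen Move L L'

/-- The edges of the open path with vertex list `L`. -/
def pedges {α : Type*} : List α → List (α × α)
  | [] => []
  | [_] => []
  | a :: b :: l => (a, b) :: pedges (b :: l)

end General

section Plane

/-- number of half-open edges whose projection to the plane contains `x` -/
noncomputable def cnt (ed : List ((ℂ × ℝ) × (ℂ × ℝ))) (x : ℂ) : ℕ :=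
  open Classical in ed.countP (fun e => decide (x ∈ hseg e.1.1 e.2.1))

/-- number of points of the polygon `P` over `x` -/
noncomputable def mult (P : List (ℂ × ℝ)) (x : ℂ) : ℕ := cnt (cedges P) x

/-- number of vertices of `P` over `O` -/
noncomputable def ax (O : ℂ) (P : List (ℂ × ℝ)) : ℕ :=
  open Classical in P.countP (fun v => decide (v.1 = O))

/-- regular polygon with centre `O` -/
structure Reg (O : ℂ) (P : List (ℂ × ℝ)) : Prop where
  simple : Simple P
  nondeg : ∀ e ∈ cedges P, e.1.1 ≠ e.2.1
  center : mult P O = ax O P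
  two : ∀ x, x ≠ O → mult P x ≤ 2
  vert : ∀ v ∈ P, v.1 ≠ O → mult P v.1 = 1

/-- the double points outside the centre -/
def dbl (O : ℂ) (P : List (ℂ × ℝ)) : Set ℂ := {x | x ≠ O ∧ mult P x = 2}

/-- polygon with centre `O`: `W` is the list of loops (level at which the loop starts, vertices) -/
def poly (O : ℂ) (W : List (ℝ × List (ℂ × ℝ))) : List (ℂ × ℝ) :=
  W.flatMap (fun p => ((O, p.1) : ℂ × ℝ) :: p.2)

/-- planar image of the loop with vertices `L` at the centre `O` -/
def img (O : ℂ) (L : List (ℂ × ℝ)) : Set ℂ :=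
  {x | ∃ e ∈ cedges (O :: L.map Prod.fst), x ∈ segment ℝ e.1 e.2}

/-- family of loops at `O` with pairwise disjoint planar images; loops with one vertex are pages -/
structure Loops (O : ℂ) (W : List (ℝ × List (ℂ × ℝ))) : Prop where
  len : 2 ≤ W.length ∨ ∃ p ∈ W, 2 ≤ p.2.length
  ne : ∀ p ∈ W, p.2 ≠ []
  off : ∀ p ∈ W, ∀ v ∈ p.2, v.1 ≠ O
  nod : (W.map Prod.fst).Nodup
  simp : ∀ p ∈ W, 2 ≤ p.2.length → Simple (O :: p.2.map Prod.fst)
  disj : W.Pairwise (fun p q => img O p.2 ∩ img O q.2 ⊆ {O})

end Plane

end Knot548
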