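import Pool.Agent.Helper923.Knot.Chi

/-! Alternating polygons of configurations are simple. -/

set_option autoImplicit false
set_option backward.isDefEq.respectTransparency.types false

namespace Knot548

theorem sa_aff0 {m : ℕ} (a b : Fin m → (Fin 3 → ℝ)) (h : Conf a b) {i j k l : Fin m}
    (hij : i < j) (hkl : k < l) (α β γ δ : ℝ) (hs : α + β + γ + δ = 0)
    (he : α • a i + β • a j + γ • b k + δ • b l = 0) : α = 0 ∧ β = 0 ∧ γ = 0 ∧ δ = 0 := by
  have hdet := (h i j k l hij hkl).ne'
  unfold chi at hdet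
  have hv : Matrix.vecMul ![β, γ, δ] (Matrix.of ![a j - a i, b k - a i, b l - a i]) = 0 := by
    have hα : α = -(β + γ + δ) := by linarith
    funext x
    have hx := congrFun he x
    simp only [Pi.add_apply, Pi.smul_apply, smul_eq_mul, Pi.zero_apply, hα] at hx
    simp only [Matrix.vecMul, dotProduct, Fin.sum_univ_three, Matrix.of_apply, Matrix.cons_val_zero,
      Matrix.cons_val_one, Matrix.cons_val, Pi.sub_apply, Pi.zero_apply]
    linarith
  have h0 := Matrix.eq_zero_of_vecMul_eq_zero hdet hv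
  have hβ : β = 0 := by simpa using congrFun h0 0
  have hγ : γ = 0 := by simpa using congrFun h0 1
  have hδ : δ = 0 := by simpa using congrFun h0 2
  exact ⟨by linarith, hβ, hγ, hδ⟩

theorem sa_aff {m : ℕ} (a b : Fin m → (Fin 3 → ℝ)) (h : Conf a b) {i j k l : Fin m}
    (hij : i ≠ j) (hkl : k ≠ l) (α β γ δ : ℝ) (hs : α + β + γ + δ = 0)
    (he : α • a i + β • a j + γ • b k + δ • b l = 0) : α = 0 ∧ β = 0 ∧ γ = 0 ∧ δ = 0 := by
  rcases lt_or_gt_of_ne hij with h1 | h1 <;> rcases lt_or_gt_of_ne hkl with h2 | h2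
  · exact sa_aff0 a b h h1 h2 α β γ δ hs he
  · obtain ⟨e1, e2, e3, e4⟩ := sa_aff0 a b h h1 h2 α β δ γ (by linarith) (by rw [← he]; abel)
    exact ⟨e1, e2, e4, e3⟩
  · obtain ⟨e1, e2, e3, e4⟩ := sa_aff0 a b h h1 h2 β α γ δ (by linarith) (by rw [← he]; abel)
    exact ⟨e2, e1, e3, e4⟩
  · obtain ⟨e1, e2, e3, e4⟩ := sa_aff0 a b h h1 h2 β α δ γ (by linarith) (by rw [← he]; abel)
    exact ⟨e2, e1, e4, e3⟩

/-- labels of the vertices -/
def lab {m : ℕ} (π : List (Fin m × Fin m)) : List (Fin m ⊕ Fin m) :=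
  π.flatMap (fun p => [Sum.inl p.1, Sum.inr p.2])

theorem alt_eq {m : ℕ} (a b : Fin m → (Fin 3 → ℝ)) (π : List (Fin m × Fin m)) :
    alt a b π = (lab π).map (Sum.elim a b) := by
  unfold alt lab
  rw [List.map_flatMap]
  rfl

theorem lab_length {m : ℕ} (π : List (Fin m × Fin m)) : (lab π).length = 2 * π.length := by
  unfold lab
  induction π with
  | nil => rfl
  | cons p π ih =>
    rw [List.flatMap_cons, List.length_append, ih]
    simp only [List.length_cons, List.length_nil]
    ring

theorem lab_isLeft {m : ℕ} (π : List (Fin m × Fin m)) (i : ℕ) (hi : i < (lab π).length) :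
    ((lab π)[i]).isLeft = decide (i % 2 = 0) := by
  induction π generalizing i with
  | nil => exact absurd hi (by simp [lab])
  | cons p π ih =>
    have e : lab (p :: π) = Sum.inl p.1 :: Sum.inr p.2 :: lab π := rfl
    rcases i with _ | _ | i
    · simp [e]
    · simp [e]
    · have hi' : i < (lab π).length := by
        rw [e] at hi
        simp only [List.length_cons] at hi
        omega
      have := ih i hi'
      simp only [e, List.getElem_cons_succ]
      rw [this]
      congr 1
      apply propext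
      omega

theorem lab_nodup {m : ℕ} (π : List (Fin m × Fin m)) (h1 : (π.map Prod.fst).Nodup)
    (h2 : (π.map Prod.snd).Nodup) : (lab π).Nodup := by
  unfold lab
  rw [List.nodup_flatMap]
  constructor
  · intro p _
    simp
  · rw [List.Nodup, List.pairwise_map] at h1 h2
    refine (h1.and h2).imp ?_
    rintro p q ⟨e1, e2⟩
    simp only [Function.onFun, List.disjoint_left, List.mem_cons, List.not_mem_nil, or_false]
    rintro x (rfl | rfl) <;> simp [e1, e2]

theorem cedges_map {α β : Type*} (f : α → β) (L : List α) :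
    cedges (L.map f) = (cedges L).map (Prod.map f f) := by
  unfold cedges
  rw [← List.map_rotate, List.zip_map]

theorem cedges_length {α : Type*} (L : List α) : (cedges L).length = L.length := by
  simp [cedges]

theorem cedges_getElem {α : Type*} (L : List α) (i : ℕ) (hi : i < (cedges L).length) :
    (cedges L)[i] = (L[i]'(by simpa [cedges] using hi),
      L[(i + 1) % L.length]'(Nat.mod_lt _ (by rw [cedges_length] at hi; omega))) := by
  unfold cedges
  rw [List.getElem_zip, List.getElem_rotate]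

theorem sa_mixed {m : ℕ} (x y : Fin m ⊕ Fin m) (h : x.isLeft ≠ y.isLeft) :
    (∃ i k, x = Sum.inl i ∧ y = Sum.inr k) ∨ (∃ i k, x = Sum.inr k ∧ y = Sum.inl i) := by
  rcases x with i | k <;> rcases y with j | l
  · simp at h
  · exact Or.inl ⟨i, l, rfl, rfl⟩
  · exact Or.inr ⟨j, k, rfl, rfl⟩
  · simp at h

theorem cedges_mixed {m : ℕ} (π : List (Fin m × Fin m)) (i : ℕ) (hi : i < (cedges (lab π)).length) :
    ((cedges (lab π))[i]).1.isLeft ≠ ((cedges (lab π))[i]).2.isLeft := by
  rw [cedges_getElem]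
  simp only
  rw [lab_isLeft, lab_isLeft]
  have e : ((i + 1) % (lab π).length) % 2 = (i + 1) % 2 :=
    Nat.mod_mod_of_dvd _ (by rw [lab_length]; exact dvd_mul_right 2 _)
  rw [e]
  intro h
  have h' : (i % 2 = 0) ↔ ((i + 1) % 2 = 0) := by
    simpa using h
  omega

theorem sa_B {m : ℕ} (a b : Fin m → (Fin 3 → ℝ)) (h : Conf a b) (hm : Nontrivial (Fin m))
    (i j k l : Fin m) (hne : ¬ (i = j ∧ k = l)) :
    Disjoint (hseg (a i) (b k)) (hseg (b l) (a j)) := by
  rw [Set.disjoint_left]
  rintro x ⟨s, hs0, hs1, hx⟩ ⟨t, ht0, ht1, hx'⟩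
  have he := hx.symm.trans hx'
  by_cases hij : i = j
  · subst hij
    have hkl : k ≠ l := fun e => hne ⟨rfl, e⟩
    obtain ⟨j', hj'⟩ := exists_ne i
    have := sa_aff a b h hj'.symm hkl (1 - s - t) 0 s (-(1 - t)) (by ring) (by
      have : (1 - s) • a i + s • b k - ((1 - t) • b l + t • a i) = 0 := sub_eq_zero.2 he
      rw [← this]; module)
    linarith [this.2.2.2]
  · by_cases hkl : k = l
    · subst hkl
      obtain ⟨l', hl'⟩ := exists_ne k
      have := sa_aff a b h hij hl'.symm (1 - s) (-t) (s - (1 - t)) 0 (by ring) (by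
        have : (1 - s) • a i + s • b k - ((1 - t) • b k + t • a j) = 0 := sub_eq_zero.2 he
        rw [← this]; module)
      linarith [this.1]
    · have := sa_aff a b h hij hkl (1 - s) (-t) s (-(1 - t)) (by ring) (by
        have : (1 - s) • a i + s • b k - ((1 - t) • b l + t • a j) = 0 := sub_eq_zero.2 he
        rw [← this]; module)
      linarith [this.1]

theorem sa_A {m : ℕ} (a b : Fin m → (Fin 3 → ℝ)) (h : Conf a b)
    (i j k l : Fin m) (hij : i ≠ j) (hkl : k ≠ l) :
    Disjoint (hseg (a i) (b k)) (hseg (a j) (b l)) := by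
  rw [Set.disjoint_left]
  rintro x ⟨s, hs0, hs1, hx⟩ ⟨t, ht0, ht1, hx'⟩
  have he := hx.symm.trans hx'
  have := sa_aff a b h hij hkl (1 - s) (-(1 - t)) s (-t) (by ring) (by
    have : (1 - s) • a i + s • b k - ((1 - t) • a j + t • b l) = 0 := sub_eq_zero.2 he
    rw [← this]; module)
  linarith [this.1]

theorem sa_D {m : ℕ} (a b : Fin m → (Fin 3 → ℝ)) (h : Conf a b)
    (i j k l : Fin m) (hij : i ≠ j) (hkl : k ≠ l) :
    Disjoint (hseg (b k) (a i)) (hseg (b l) (a j)) := by
  rw [Set.disjoint_left]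
  rintro x ⟨s, hs0, hs1, hx⟩ ⟨t, ht0, ht1, hx'⟩
  have he := hx.symm.trans hx'
  have := sa_aff a b h hij hkl s (-t) (1 - s) (-(1 - t)) (by ring) (by
    have : (1 - s) • b k + s • a i - ((1 - t) • b l + t • a j) = 0 := sub_eq_zero.2 he
    rw [← this]; module)
  linarith [this.2.2.1]

theorem sa_ne {m : ℕ} (a b : Fin m → (Fin 3 → ℝ)) (h : Conf a b) (hm : Nontrivial (Fin m))
    (i k : Fin m) : a i ≠ b k := by
  intro he
  obtain ⟨j', hj'⟩ := exists_ne i
  obtain ⟨l', hl'⟩ := exists_ne k
  have := sa_aff a b h hj'.symm hl'.symm 1 0 (-1) 0 (by ring) (by rw [he]; module)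
  linarith [this.1]

theorem simple_alt {m : ℕ} (a b : Fin m → (Fin 3 → ℝ)) (h : Conf a b)
    (π : List (Fin m × Fin m)) (hl : 2 ≤ π.length) (h1 : (π.map Prod.fst).Nodup)
    (h2 : (π.map Prod.snd).Nodup) : Simple (alt a b π) := by
  have hm : Nontrivial (Fin m) := by
    have e0 : 0 < (π.map Prod.fst).length := by simp; omega
    have e1 : 1 < (π.map Prod.fst).length := by simp; omega
    refine ⟨(π.map Prod.fst)[0], (π.map Prod.fst)[1], ?_⟩
    intro he
    have := (h1.getElem_inj_iff).1 he
    omega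
  have hnd := lab_nodup π h1 h2
  have hlen := lab_length π
  rw [alt_eq]
  constructor
  · rw [cedges_map]
    intro e he
    obtain ⟨e0, he0, rfl⟩ := List.mem_map.1 he
    obtain ⟨n, hn, rfl⟩ := List.getElem_of_mem he0
    rcases sa_mixed _ _ (cedges_mixed π n hn) with ⟨i, k, e1, e2⟩ | ⟨i, k, e1, e2⟩
    · simp only [Prod.map_fst, Prod.map_snd, e1, e2, Sum.elim_inl, Sum.elim_inr]
      exact sa_ne a b h hm i k
    · simp only [Prod.map_fst, Prod.map_snd, e1, e2, Sum.elim_inl, Sum.elim_inr]
      exact (sa_ne a b h hm i k).symm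
  · rw [cedges_map, List.pairwise_map, List.pairwise_iff_getElem]
    intro p q hp hq hpq
    have hp' : p < (lab π).length := by rwa [cedges_length] at hp
    have hq' : q < (lab π).length := by rwa [cedges_length] at hq
    have hN : 4 ≤ (lab π).length := by rw [hlen]; omega
    have c1 : ((cedges (lab π))[p]).1 ≠ ((cedges (lab π))[q]).1 := by
      rw [cedges_getElem, cedges_getElem]
      intro he
      have := (hnd.getElem_inj_iff).1 he
      omega
    have hmod : ∀ x, x < (lab π).length → (x + 1) % (lab π).length =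
        if x + 1 = (lab π).length then 0 else x + 1 := by
      intro x hx
      split_ifs with hx'
      · rw [hx', Nat.mod_self]
      · exact Nat.mod_eq_of_lt (by omega)
    have c2 : ((cedges (lab π))[p]).2 ≠ ((cedges (lab π))[q]).2 := by
      rw [cedges_getElem, cedges_getElem]
      intro he
      have := (hnd.getElem_inj_iff).1 he
      rw [hmod p hp', hmod q hq'] at this
      split_ifs at this <;> omega
    have c3 : ¬ (((cedges (lab π))[p]).1 = ((cedges (lab π))[q]).2 ∧
        ((cedges (lab π))[p]).2 = ((cedges (lab π))[q]).1) := by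
      rw [cedges_getElem, cedges_getElem]
      rintro ⟨he, he'⟩
      have h3 := (hnd.getElem_inj_iff).1 he
      have h4 := (hnd.getElem_inj_iff).1 he'
      rw [hmod q hq'] at h3
      rw [hmod p hp'] at h4
      split_ifs at h3 h4 <;> omega
    rcases sa_mixed _ _ (cedges_mixed π p hp) with ⟨i, k, e1, e2⟩ | ⟨i, k, e1, e2⟩ <;>
      rcases sa_mixed _ _ (cedges_mixed π q hq) with ⟨j, l, e3, e4⟩ | ⟨j, l, e3, e4⟩ <;>
      simp only [Prod.map_fst, Prod.map_snd, e1, e2, e3, e4, Sum.elim_inl, Sum.elim_inr] <;>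
      rw [e1, e3] at c1 <;> rw [e2, e4] at c2 <;> rw [e1, e2, e3, e4] at c3
    · exact sa_A a b h i j k l (fun e => c1 (by rw [e])) (fun e => c2 (by rw [e]))
    · exact sa_B a b h hm i j k l (fun e => c3 ⟨by rw [e.1], by rw [e.2]⟩)
    · exact (sa_B a b h hm j i l k (fun e => c3 ⟨by rw [e.2], by rw [e.1]⟩)).symm
    · exact sa_D a b h i j k l (fun e => c2 (by rw [e])) (fun e => c1 (by rw [e]))

end Knot548
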