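import Pool.Agent.Helper923.Knot.B1
import Pool.Agent.Helper923.Knot.SimpleAlt

/-! The knot type of an alternating polygon depends on the pattern only. -/

set_option autoImplicit false
set_option backward.isDefEq.respectTransparency.types false

namespace Knot548

theorem partB {m : ℕ} (a b a' b' : Fin m → (Fin 3 → ℝ)) (h : Conf a b) (h' : Conf a' b')
    (π : List (Fin m × Fin m)) (hl : 2 ≤ π.length) (h1 : (π.map Prod.fst).Nodup)
    (h2 : (π.map Prod.snd).Nodup) : Eqv (alt a b π) (alt a' b' π) := by
  have hm : 2 ≤ m := by
    have := h1.length_le_card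
    simp at this
    omega
  obtain ⟨k, rfl⟩ : ∃ k, m = k + 2 := ⟨m - 2, by omega⟩
  have j1 := joined_std a b h
  have j2 := joined_std a' b' h'
  exact eqv_of_joined a b a' b' π (fun c d hcd => simple_alt c d hcd π hl h1 h2) (j1.trans j2.symm)

end Knot548
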