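import Pool.Agent.Helper923.Knot.B3a
import Pool.Agent.Helper923.Knot.LoopsData
import Pool.Agent.Helper923.Knot.Half
import Pool.Agent.Helper923.Knot.ChiE

/-! Every spoke polygon is an alternating polygon of a configuration, up to equivalence. -/

set_option autoImplicit false
set_option backward.isDefEq.respectTransparency.types false

namespace Knot548

theorem spokes (O : ℂ) (W : List (ℝ × List (ℂ × ℝ))) (hW : Loops O W)
    (h1 : ∀ p ∈ W, p.2.length = 1) (e : (ℂ × ℝ) ≃L[ℝ] (Fin 3 → ℝ)) :
    ∃ (a b : Fin W.length → (Fin 3 → ℝ)) (π : List (Fin W.length × Fin W.length)),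
      Conf a b ∧ 2 ≤ π.length ∧ (π.map Prod.fst).Nodup ∧ (π.map Prod.snd).Nodup ∧
      Eqv ((poly O W).map e) (alt a b π) := by
  obtain ⟨hn, h, p, hh, hx, hd, hpoly⟩ := loops_data O W hW h1
  obtain ⟨q, hq1, hq2, hmv⟩ := spoke_moves hn O h hh p hx hd
  obtain ⟨ω, δ, hω, hδ0, hδ1, hhalf⟩ := exists_half (fun i => (q i).1 - O) hq1
  set x : ℂ := O + (1 - δ) • ω with hxdef
  have hxO : ‖x - O‖ < 1 := by
    rw [hxdef, add_sub_cancel_left, norm_smul, hω, mul_one, Real.norm_eq_abs,
      abs_of_pos (by linarith)]
    linarith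
  have hωω : ω.re ^ 2 + ω.im ^ 2 = 1 := by
    have h2 : ‖ω‖ ^ 2 = 1 := by rw [hω]; norm_num
    rw [← Complex.normSq_eq_norm_sq, Complex.normSq_apply] at h2
    linarith
  -- rotated coordinates
  let A : Fin W.length → ℝ := fun i => ((q i).1 - x).re * ω.re + ((q i).1 - x).im * ω.im
  let B : Fin W.length → ℝ := fun i => ((q i).1 - x).im * ω.re - ((q i).1 - x).re * ω.im
  have hA : ∀ i, A i < 0 := by
    intro i
    have h2 := hhalf i
    simp only [Complex.mul_re, Complex.conj_re, Complex.conj_im, Complex.sub_re,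
      Complex.sub_im] at h2
    have h3 : A i = ((q i).1.re - O.re) * ω.re - ((q i).1.im - O.im) * -ω.im
        - (1 - δ) * (ω.re ^ 2 + ω.im ^ 2) := by
      simp only [A, hxdef, Complex.sub_re, Complex.sub_im, Complex.add_re, Complex.add_im,
        Complex.real_smul, Complex.mul_re, Complex.mul_im, Complex.ofReal_re, Complex.ofReal_im]
      ring
    rw [h3, hωω]
    linarith
  have hre : ∀ i, ((q i).1 - x).re = A i * ω.re - B i * ω.im := by
    intro i
    have : A i * ω.re - B i * ω.im = ((q i).1 - x).re * (ω.re ^ 2 + ω.im ^ 2) := by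
      simp only [A, B]; ring
    rw [this, hωω, mul_one]
  have him : ∀ i, ((q i).1 - x).im = A i * ω.im + B i * ω.re := by
    intro i
    have : A i * ω.im + B i * ω.re = ((q i).1 - x).im * (ω.re ^ 2 + ω.im ^ 2) := by
      simp only [A, B]; ring
    rw [this, hωω, mul_one]
  have hcross : ∀ i j, ((q i).1 - x).re * ((q j).1 - x).im - ((q i).1 - x).im * ((q j).1 - x).re
      = A i * A j * (B j / A j - B i / A i) := by
    intro i j
    have h2 := (hA i).ne
    have h3 := (hA j).ne
    have h4 : A i * A j * (B j / A j - B i / A i) = A i * B j - B i * A j := by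
      field_simp
    rw [h4, hre i, hre j, him i, him j]
    have : (A i * ω.re - B i * ω.im) * (A j * ω.im + B j * ω.re) -
        (A i * ω.im + B i * ω.re) * (A j * ω.re - B j * ω.im) =
        (A i * B j - B i * A j) * (ω.re ^ 2 + ω.im ^ 2) := by ring
    rw [this, hωω, mul_one]
  obtain ⟨c, hc, hchi⟩ := chi_e e
  let κ : Fin W.length → ℝ := fun i => c * (B i / A i)
  have hκ : Function.Injective κ := by
    intro i j hij
    by_contra hne
    have h2 : B i / A i = B j / A j := mul_left_cancel₀ hc hij
    have h3 := (hA i).ne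
    have h4 := (hA j).ne
    have h5 : B i * A j = B j * A i := by
      rw [div_eq_div_iff h3 h4] at h2
      exact h2
    have h6 : (-(A j)) • ((q i).1 - x) = (-(A i)) • ((q j).1 - x) := by
      apply Complex.ext
      · simp only [Complex.real_smul, Complex.mul_re, Complex.ofReal_re, Complex.ofReal_im,
          zero_mul, sub_zero]
        rw [hre i, hre j]
        linear_combination (ω.im) * h5
      · simp only [Complex.real_smul, Complex.mul_im, Complex.ofReal_re, Complex.ofReal_im,
          zero_mul, add_zero]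
        rw [him i, him j]
        linear_combination (-ω.re) * h5
    have h7 := ray_once O x hxO _ _ (hq1 i) (hq1 j) (hq2 i j hne) _ _
      (by have := hA j; linarith) (by have := hA i; linarith) h6
    have := hA j
    linarith
  -- sorting
  let σ := Tuple.sort h
  let τ := Tuple.sort κ
  have hσ : StrictMono (h ∘ σ) :=
    (Tuple.monotone_sort h).strictMono_of_injective (hh.comp σ.injective)
  have hτ : StrictMono (κ ∘ τ) :=
    (Tuple.monotone_sort κ).strictMono_of_injective (hκ.comp τ.injective)
  refine ⟨fun i => e (x, h (σ i)), fun k => e (q (τ k)),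
    List.ofFn (fun i => (σ.symm i, τ.symm i)), ?_, ?_, ?_, ?_, ?_⟩
  · intro i j k l hij hkl
    show 0 < chi _ _ _ _
    rw [hchi, hcross]
    have h2 : 0 < h (σ j) - h (σ i) := sub_pos.2 (hσ hij)
    have h3 : 0 < κ (τ l) - κ (τ k) := sub_pos.2 (hτ hkl)
    have h4 : 0 < A (τ k) * A (τ l) := mul_pos_of_neg_of_neg (hA _) (hA _)
    have h5 : c * ((h (σ j) - h (σ i)) * (A (τ k) * A (τ l) * (B (τ l) / A (τ l) -
        B (τ k) / A (τ k)))) = (h (σ j) - h (σ i)) * ((A (τ k) * A (τ l)) *
          (κ (τ l) - κ (τ k))) := by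
      simp only [κ]; ring
    rw [h5]
    positivity
  · simpa using hn
  · rw [List.ofFn_eq_map, List.map_map]
    exact (List.nodup_finRange _).map σ.symm.injective
  · rw [List.ofFn_eq_map, List.map_map]
    exact (List.nodup_finRange _).map τ.symm.injective
  · have h2 := eqv_map e _ _ (hmv x hxO)
    rw [← hpoly] at h2
    have h3 : (alt (fun i => ((x, h i) : ℂ × ℝ)) q (List.ofFn fun i => (i, i))).map e =
        alt (fun i => e (x, h (σ i))) (fun k => e (q (τ k)))
          (List.ofFn (fun i => (σ.symm i, τ.symm i))) := by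
      unfold alt
      rw [List.map_flatMap, List.ofFn_eq_map, List.ofFn_eq_map, List.flatMap_map,
        List.flatMap_map]
      simp
    rw [h3] at h2
    exact h2

end Knot548
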